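import Pool.Agent.H46.SI.Low

/-!
# Short windows of primes: all windows at once
-/

set_option autoImplicit false

namespace Pool.Agent.H46.SI

open Finset Pool.Agent.Q255.EB
open Q282LT (zbox zprop avg ZPer mem_zbox card_zbox)
open Pool.Agent.H46.SW

/-- the property of the short windows -/
def Good (d s : ℕ) (q : ℕ → ℕ) (x : ℕ → (Fin d → ℤ) → ℝ) (δ l : ℝ) (K M : ℕ) (ν : Fin d → ℤ) : Prop :=
  (∀ N : ℕ, N + M ≤ K → ∀ M' ≤ M, ∀ I : Fin s → Set ℝ, (∀ i, (I i).OrdConnected) →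
    |count (sh N x) I M' ν - cmean (sh N q) (sh N x) I M'| ≤ (1 + δ) * √(2 * Vm d s (sh N q) (sh N x) M * l)) ∧
  (∃ N : ℕ, N + M ≤ K ∧ ∃ M' ≤ M, ∃ I : Fin s → Set ℝ, (∀ i, (I i).OrdConnected) ∧
    (1 - δ) * √(2 * Vm d s (sh N q) (sh N x) M * l) ≤ count (sh N x) I M' ν - cmean (sh N q) (sh N x) I M') ∧
  (∃ N : ℕ, N + M ≤ K ∧ ∃ M' ≤ M, ∃ I : Fin s → Set ℝ, (∀ i, (I i).OrdConnected) ∧
    count (sh N x) I M' ν - cmean (sh N q) (sh N x) I M' ≤ -((1 - δ) * √(2 * Vm d s (sh N q) (sh N x) M * l)))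

/-- all windows at once -/
theorem main (s : ℕ) (c δ : ℝ) (hc : 0 < c) (hδ : 0 < δ) (hδ1 : δ ≤ 1) : ∃ (A κ : ℝ) (K₀ : ℕ), 1 ≤ A ∧ 0 < κ ∧ κ ≤ 1 / 8 ∧ 3 ≤ K₀ ∧
    ∀ (d K : ℕ) (q : ℕ → ℕ) (x : ℕ → (Fin d → ℤ) → ℝ), Fam d (K + s) q x → K₀ ≤ K →
      (∀ N M : ℕ, N + M ≤ K → A * Real.log K ≤ M → (M : ℝ) ≤ Real.exp (κ * Real.log K) → c * M ≤ Vm d s (sh N q) (sh N x) M) →
      ∀ Y : ℕ, (∀ i < K + s, q i ≤ Y) → K ≤ Y → ∀ (μ : Fin d → ℤ) (L : Fin d → ℕ),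
        (∀ i, (d + 1) * (Y : ℝ) ^ (A * Real.log K) ≤ L i) →
        zprop μ L (fun ν => ¬ ∀ M : ℕ, A * Real.log K ≤ M → (M : ℝ) ≤ Real.exp (κ * Real.log K) →
          Good d s q x δ (Real.log K) K M ν) ≤ Real.exp (-(κ * Real.log K)) := by
  classical
  obtain ⟨A₁, K₁, hA₁, hK₁3, H₁⟩ := win_upper s c δ hc hδ hδ1
  obtain ⟨A₂, κ, K₂, hA₂, hκ0, hκδ, hK₂3, H₂⟩ := win_lower s c δ hc hδ hδ1
  obtain ⟨K₃, hK₃3, hK₃⟩ := ev_log (3 / κ)
  refine ⟨max A₁ A₂, κ, max (max K₁ K₂) K₃, hA₁.trans (le_max_left _ _), hκ0, by linarith, hK₃3.trans (le_max_right _ _), ?_⟩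
  intro d K q x hF hK hV Y hY hKY μ L hL
  have hKK₁ : K₁ ≤ K := (le_max_left _ _).trans ((le_max_left _ _).trans hK)
  have hKK₂ : K₂ ≤ K := (le_max_right _ _).trans ((le_max_left _ _).trans hK)
  have hKK₃ : K₃ ≤ K := (le_max_right _ _).trans hK
  have hlog := hK₃ K hKK₃
  have hK0 : (0 : ℝ) < K := by exact_mod_cast (show 0 < K by omega)
  have hK1 : (1 : ℝ) ≤ K := by exact_mod_cast (show 1 ≤ K by omega)
  have hY1 : (1 : ℝ) ≤ Y := by exact_mod_cast (show 1 ≤ Y by omega)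
  have hKe : Real.exp (Real.log K) = K := Real.exp_log hK0
  obtain ⟨l, hl⟩ : ∃ l : ℝ, l = Real.log K := ⟨_, rfl⟩
  obtain ⟨E, hE⟩ : ∃ E : ℝ, E = Real.exp (κ * l) := ⟨_, rfl⟩
  have hl0 : 0 < l := by rw [hl]; exact lt_of_lt_of_le (by positivity) hlog
  have hκl : 3 ≤ κ * l := by
    rw [← hl, div_le_iff₀ hκ0] at hlog
    linarith
  have hE1 : 1 ≤ E := by rw [hE]; exact Real.one_le_exp (by positivity)
  have hE8 : 8 ≤ E := by
    rw [hE]
    have h1 : Real.exp 3 ≤ Real.exp (κ * l) := Real.exp_le_exp.2 hκl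
    have h2 : (8 : ℝ) ≤ Real.exp 3 := by
      have e1 : Real.exp 3 = Real.exp 1 ^ 3 := by rw [← Real.exp_nat_mul]; norm_num
      have h6 := Real.exp_one_gt_d9
      rw [e1]
      have h7 : (2.7 : ℝ) ^ 3 ≤ Real.exp 1 ^ 3 := pow_le_pow_left₀ (by norm_num) (by linarith) 3
      refine le_trans ?_ h7
      norm_num
    linarith
  have hsides : ∀ A' : ℝ, A' ≤ max A₁ A₂ → ∀ i, (d + 1) * (Y : ℝ) ^ (A' * Real.log K) ≤ L i := by
    intro A' hA' i
    refine le_trans (mul_le_mul_of_nonneg_left (Real.rpow_le_rpow_of_exponent_le hY1 ?_) (by positivity)) (hL i)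
    apply mul_le_mul_of_nonneg_right hA'
    rw [← hl]
    exact hl0.le
  rw [← hl] at hV hL ⊢
  -- the sets of indices
  obtain ⟨TM, hTM⟩ : ∃ TM : Finset ℕ, TM = range (⌊E⌋₊ + 1) := ⟨_, rfl⟩
  have hTMc : (TM.card : ℝ) ≤ 2 * E := by
    rw [hTM, card_range]
    push_cast
    have := Nat.floor_le (show 0 ≤ E by linarith)
    linarith
  have hmemT : ∀ M : ℕ, (M : ℝ) ≤ E → M ∈ TM := by
    intro M hM
    rw [hTM, mem_range]
    have := Nat.le_floor hM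
    omega
  have hcond : ∀ M : ℕ, max A₁ A₂ * l ≤ M → A₁ * l ≤ M ∧ A₂ * l ≤ M := by
    intro M hM
    exact ⟨(mul_le_mul_of_nonneg_right (le_max_left _ _) hl0.le).trans hM,
      (mul_le_mul_of_nonneg_right (le_max_right _ _) hl0.le).trans hM⟩
  obtain ⟨C, hC⟩ : ∃ C : ℕ → Prop, C = fun M : ℕ => max A₁ A₂ * l ≤ (M : ℝ) ∧ (M : ℝ) ≤ E := ⟨_, rfl⟩
  obtain ⟨U, hU⟩ : ∃ U : ℕ × ℕ → (Fin d → ℤ) → Prop, U = fun p ν => (C p.2 ∧ p.1 + p.2 ≤ K) ∧ ∃ M' ≤ p.2, ∃ I : Fin s → Set ℝ,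
    (∀ i, (I i).OrdConnected) ∧ (1 + δ) * √(2 * Vm d s (sh p.1 q) (sh p.1 x) p.2 * l) ≤
      |count (sh p.1 x) I M' ν - cmean (sh p.1 q) (sh p.1 x) I M'| := ⟨_, rfl⟩
  obtain ⟨W, hW⟩ : ∃ W : ℝ → ℕ → (Fin d → ℤ) → Prop, W = fun σ M ν => C M ∧ ¬ ∃ N : ℕ, N + M ≤ K ∧ ∃ M' ≤ M, ∃ I : Fin s → Set ℝ,
    (∀ i, (I i).OrdConnected) ∧ (1 - δ) * √(2 * Vm d s (sh N q) (sh N x) M * l) ≤
            σ * (count (sh N x) I M' ν - cmean (sh N q) (sh N x) I M') := ⟨_, rfl⟩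
  have hUle : ∀ p : ℕ × ℕ, zprop μ L (U p) ≤ Real.exp (-((1 + δ) * l)) := by
    intro p
    by_cases hp : C p.2 ∧ p.1 + p.2 ≤ K
    · have hC' := hp.1
      rw [hC] at hC'
      have h1 := H₁ d K q x hF hKK₁ p.1 p.2 hp.2 (by rw [← hl]; exact (hcond _ hC'.1).1)
        (hV _ _ hp.2 hC'.1 (by rw [← hE]; exact hC'.2)) Y hY hKY μ L (hsides A₁ (le_max_left _ _))
      rw [← hl] at h1
      refine le_trans (Q69DL.zprop_mono fun ν hν => ?_) h1
      rw [hU] at hν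
      exact hν.2
    · rw [zprop_empty μ L (U p) (fun ν hν => hp (by rw [hU] at hν; exact hν.1))]
      exact (Real.exp_pos _).le
  have hWle : ∀ (σ : ℝ), (σ = 1 ∨ σ = -1) → ∀ M : ℕ, zprop μ L (W σ M) ≤ Real.exp (-(3 * κ * l)) := by
    intro σ hσ M
    by_cases hp : C M
    · have hC' := hp
      rw [hC] at hC'
      have h1 := H₂ d K q x hF hKK₂ M (by rw [← hl]; exact (hcond _ hC'.1).2) (by rw [← hl, ← hE]; exact hC'.2)
        (fun N hN => hV N M hN hC'.1 (by rw [← hE]; exact hC'.2)) Y hY hKY μ L (hsides A₂ (le_max_right _ _)) σ hσ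
      rw [← hl] at h1
      refine le_trans (Q69DL.zprop_mono fun ν hν => ?_) h1
      rw [hW] at hν
      exact hν.2
    · rw [zprop_empty μ L (W σ M) (fun ν hν => hp (by rw [hW] at hν; exact hν.1))]
      exact (Real.exp_pos _).le
  have hun : zprop μ L (fun ν => ¬ ∀ M : ℕ, max A₁ A₂ * l ≤ M → (M : ℝ) ≤ Real.exp (κ * l) → Good d s q x δ l K M ν) ≤
      ∑ p ∈ range (K + 1) ×ˢ TM, zprop μ L (U p) + (∑ M ∈ TM, zprop μ L (W 1 M) + ∑ M ∈ TM, zprop μ L (W (-1) M)) := by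
    refine (Q69DL.zprop_or (Q := fun ν => ∃ p ∈ range (K + 1) ×ˢ TM, U p ν)
      (R := fun ν => (∃ M ∈ TM, W 1 M ν) ∨ (∃ M ∈ TM, W (-1) M ν)) ?_).trans ?_
    · intro ν hbad
      by_contra hcon
      rw [not_or, not_or] at hcon
      obtain ⟨h1, h2, h3⟩ := hcon
      apply hbad
      intro M hM1 hM2
      rw [← hE] at hM2
      have hCM : C M := by rw [hC]; exact ⟨hM1, hM2⟩
      refine ⟨?_, ?_, ?_⟩
      · intro N hN M' hM' I hI
        by_contra h4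
        push Not at h4
        apply h1
        refine ⟨(N, M), ?_, ?_⟩
        · rw [mem_product]
          refine ⟨?_, hmemT M hM2⟩
          rw [mem_range]
          show N < K + 1
          omega
        · rw [hU]
          exact ⟨⟨hCM, hN⟩, M', hM', I, hI, h4.le⟩
      · by_contra h4
        apply h2
        refine ⟨M, hmemT M hM2, ?_⟩
        rw [hW]
        refine ⟨hCM, ?_⟩
        rintro ⟨N, hN, M', hM', I, hI, h5⟩
        exact h4 ⟨N, hN, M', hM', I, hI, by linarith⟩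
      · by_contra h4
        apply h3
        refine ⟨M, hmemT M hM2, ?_⟩
        rw [hW]
        refine ⟨hCM, ?_⟩
        rintro ⟨N, hN, M', hM', I, hI, h5⟩
        exact h4 ⟨N, hN, M', hM', I, hI, by linarith⟩
    · apply add_le_add
      · exact zprop_union μ L _ _ _ fun ν h => h
      · refine (Q69DL.zprop_or fun ν h => h).trans ?_
        apply add_le_add
        · exact zprop_union μ L _ _ _ fun ν h => h
        · exact zprop_union μ L _ _ _ fun ν h => h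
  refine hun.trans ?_
  have hS1 : ∑ p ∈ range (K + 1) ×ˢ TM, zprop μ L (U p) ≤ (2 * K) * (2 * E) * Real.exp (-((1 + δ) * l)) := by
    calc _ ≤ ∑ _p ∈ range (K + 1) ×ˢ TM, Real.exp (-((1 + δ) * l)) := sum_le_sum fun p _ => hUle p
      _ = ((K + 1 : ℕ) : ℝ) * TM.card * Real.exp (-((1 + δ) * l)) := by
          rw [sum_const, card_product, card_range, nsmul_eq_mul]
          push_cast
          ring
      _ ≤ _ := by
          apply mul_le_mul_of_nonneg_right _ (Real.exp_pos _).le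
          apply mul_le_mul _ hTMc (Nat.cast_nonneg _) (by positivity)
          push_cast
          linarith
  have hS2 : ∀ σ : ℝ, (σ = 1 ∨ σ = -1) → ∑ M ∈ TM, zprop μ L (W σ M) ≤ 2 * E * Real.exp (-(3 * κ * l)) := by
    intro σ hσ
    calc _ ≤ ∑ _M ∈ TM, Real.exp (-(3 * κ * l)) := sum_le_sum fun M _ => hWle σ hσ M
      _ = (TM.card : ℝ) * Real.exp (-(3 * κ * l)) := by rw [sum_const, nsmul_eq_mul]
      _ ≤ _ := mul_le_mul_of_nonneg_right hTMc (Real.exp_pos _).le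
  have hS3 : (2 * K) * (2 * E) * Real.exp (-((1 + δ) * l)) ≤ 4 * Real.exp (-(2 * κ * l)) := by
    have e1 : (K : ℝ) = Real.exp l := by rw [hl, hKe]
    have e2 : (2 * (K : ℝ)) * (2 * E) * Real.exp (-((1 + δ) * l)) = 4 * Real.exp (κ * l - δ * l) := by
      rw [e1, hE]
      have : Real.exp (κ * l - δ * l) = Real.exp l * Real.exp (κ * l) * Real.exp (-((1 + δ) * l)) := by
        rw [← Real.exp_add, ← Real.exp_add]
        congr 1
        ring
      rw [this]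
      ring
    rw [e2]
    apply mul_le_mul_of_nonneg_left _ (by norm_num)
    apply Real.exp_le_exp.2
    nlinarith
  have hS4 : 2 * E * Real.exp (-(3 * κ * l)) = 2 * Real.exp (-(2 * κ * l)) := by
    have : Real.exp (-(2 * κ * l)) = E * Real.exp (-(3 * κ * l)) := by
      rw [hE, ← Real.exp_add]
      congr 1
      ring
    rw [this]
    ring
  have hS5 : 8 * Real.exp (-(2 * κ * l)) ≤ Real.exp (-(κ * l)) := by
    have e1 : Real.exp (-(κ * l)) = E * Real.exp (-(2 * κ * l)) := by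
      rw [hE, ← Real.exp_add]
      congr 1
      ring
    rw [e1]
    exact mul_le_mul_of_nonneg_right hE8 (Real.exp_pos _).le
  have h1 := hS2 1 (Or.inl rfl)
  have h2 := hS2 (-1) (Or.inr rfl)
  rw [hS4] at h1 h2
  linarith

end Pool.Agent.H46.SI
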