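import Pool.Agent.H46.SI.Up

/-!
# Short windows of primes: the lower bound
-/

set_option autoImplicit false

namespace Pool.Agent.H46.SI

open Finset Pool.Agent.Q255.EB
open Q282LT (zbox zprop avg ZPer mem_zbox card_zbox)
open Q285MD (wm tm vr Dat G avg_mono avg_add avg_smul avg_const avg_sum avg_dvd avg_abs blk inn rem Qb F)
open Pool.Agent.Q277.EB (gi gi_nonneg gi_le dat dev_eq)
open Q69DL (rst rst_dat rst_nonneg)
open Pool.Agent.H46.SW

/-- the number of the windows -/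
lemma num_windows (γ κ l : ℝ) (K M B : ℕ) (hγ : 0 < γ) (hγ1 : γ ≤ 1 / 32) (hκ : 0 < κ) (hκ1 : κ ≤ γ / 2) (hl : l = Real.log K)
    (hl4 : 4 / γ ≤ l) (hK : 0 < K) (hB : 0 < B) (hBM : B ≤ M) (hM : (M : ℝ) ≤ Real.exp (κ * l)) :
    1 ≤ K / (B * (M / B + 1)) ∧ (1 - γ) * l ≤ Real.log ((K / (B * (M / B + 1)) : ℕ) : ℝ) ∧
      Real.log ((K / (B * (M / B + 1)) : ℕ) : ℝ) ≤ l := by
  have hl0 : 0 < l := lt_of_lt_of_le (by positivity) hl4
  have hK0 : (0 : ℝ) < K := by exact_mod_cast hK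
  have hKe : Real.exp l = K := by rw [hl, Real.exp_log hK0]
  have hγl : 4 ≤ γ * l := by
    rw [div_le_iff₀ hγ] at hl4
    linarith
  obtain ⟨D, hD⟩ : ∃ D : ℕ, D = B * (M / B + 1) := ⟨_, rfl⟩
  rw [← hD]
  have hD1 : 0 < D := by rw [hD]; positivity
  have hD2 : D ≤ 2 * M := by
    have h1 := Nat.mul_div_le M B
    rw [hD, mul_add, mul_one]
    omega
  have hDr : (D : ℝ) ≤ 2 * Real.exp (κ * l) := by
    have h1 : (D : ℝ) ≤ 2 * M := by exact_mod_cast hD2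
    linarith
  have hDK : D ≤ K := by
    have h1 : (2 : ℝ) * Real.exp (κ * l) ≤ K := by
      rw [← hKe]
      have h2 : Real.exp l = Real.exp (l - κ * l) * Real.exp (κ * l) := by rw [← Real.exp_add]; congr 1; ring
      rw [h2]
      apply mul_le_mul_of_nonneg_right _ (Real.exp_pos _).le
      have h3 : 1 ≤ l - κ * l := by nlinarith
      have h4 := Real.add_one_le_exp (l - κ * l)
      linarith
    have h2 : (D : ℝ) ≤ K := hDr.trans h1
    exact_mod_cast h2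
  obtain ⟨m, hm⟩ : ∃ m : ℕ, m = K / D := ⟨_, rfl⟩
  rw [← hm]
  have hm1 : 1 ≤ m := by
    rw [hm, Nat.le_div_iff_mul_le hD1]
    omega
  have hmr : (1 : ℝ) ≤ m := by exact_mod_cast hm1
  refine ⟨hm1, ?_, ?_⟩
  · rw [Real.le_log_iff_exp_le (by linarith)]
    have h1 : K < D * (m + 1) := by
      rw [hm]
      exact Nat.lt_mul_div_succ K hD1
    have h2 : (K : ℝ) < D * (m + 1) := by exact_mod_cast h1
    have h3 : (K : ℝ) ≤ 4 * Real.exp (κ * l) * m := by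
      have h4 : (D : ℝ) * (m + 1) ≤ 2 * Real.exp (κ * l) * (2 * m) := by
        apply mul_le_mul hDr (by linarith) (by linarith) (by positivity)
      linarith
    have h5 : Real.exp ((1 - γ) * l) * (4 * Real.exp (κ * l)) ≤ K := by
      have h6 : (4 : ℝ) ≤ Real.exp (γ * l - κ * l) := by
        have h7 : 2 ≤ γ * l - κ * l := by nlinarith
        have h8 : Real.exp 2 ≤ Real.exp (γ * l - κ * l) := Real.exp_le_exp.2 h7
        have h9 : (4 : ℝ) ≤ Real.exp 2 := by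
          have e : Real.exp 2 = Real.exp 1 * Real.exp 1 := by rw [← Real.exp_add]; norm_num
          have := Real.exp_one_gt_d9
          rw [e]
          nlinarith
        linarith
      rw [← hKe]
      have e : Real.exp l = Real.exp ((1 - γ) * l) * (Real.exp (γ * l - κ * l) * Real.exp (κ * l)) := by
        rw [← Real.exp_add, ← Real.exp_add]
        congr 1
        ring
      rw [e]
      apply mul_le_mul_of_nonneg_left _ (Real.exp_pos _).le
      exact mul_le_mul_of_nonneg_right h6 (Real.exp_pos _).le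
    have h10 : Real.exp ((1 - γ) * l) * (4 * Real.exp (κ * l)) ≤ m * (4 * Real.exp (κ * l)) := by
      refine h5.trans (h3.trans (le_of_eq ?_))
      ring
    exact le_of_mul_le_mul_right h10 (by positivity)
  · rw [hl]
    apply Real.log_le_log (by linarith)
    have h1 : m ≤ K := by rw [hm]; exact Nat.div_le_self _ _
    exact_mod_cast h1

/-- the final inequality -/
lemma low_prob (γ l lm : ℝ) (m : ℕ) (hγ : 0 < γ) (hγ1 : γ ≤ 1 / 32) (hm : 1 ≤ m) (hlm : lm = Real.log m)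
    (h1 : (1 - γ) * l ≤ lm) (h2 : lm ≤ l) (hl : 64 / γ ^ 2 ≤ l) :
    8 * Real.exp ((1 + 3 * γ) * (2 * (1 - 4 * γ) * lm) / 2) / m + 102 * Real.exp (-((2 * (1 - 4 * γ) * lm) * γ ^ 2 / 8)) +
      m * Real.exp (-(20 * l)) ≤ Real.exp (-(3 * (γ ^ 2 / 64) * l)) := by
  have hγ2 : 0 < γ ^ 2 := by positivity
  have hl0 : 0 < l := lt_of_lt_of_le (by positivity) hl
  have hl64 : 64 ≤ γ ^ 2 * l := by
    rw [div_le_iff₀ hγ2] at hl
    linarith
  have hm0 : (0 : ℝ) < m := by exact_mod_cast (show 0 < m by omega)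
  have hme : Real.exp lm = m := by rw [hlm, Real.exp_log hm0]
  have hlm0 : 0 ≤ lm := by
    refine le_trans ?_ h1
    have : 0 ≤ 1 - γ := by linarith
    positivity
  obtain ⟨E, hE⟩ : ∃ E : ℝ, E = Real.exp (-(γ ^ 2 / 8 * l)) := ⟨_, rfl⟩
  have b1 : 8 * Real.exp ((1 + 3 * γ) * (2 * (1 - 4 * γ) * lm) / 2) / m ≤ 8 * E := by
    rw [mul_div_assoc]
    apply mul_le_mul_of_nonneg_left _ (by norm_num)
    rw [← hme, ← Real.exp_sub, hE]
    apply Real.exp_le_exp.2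
    have e : (1 + 3 * γ) * (2 * (1 - 4 * γ) * lm) / 2 - lm = -((γ + 12 * γ ^ 2) * lm) := by ring
    rw [e]
    have h3 : γ ^ 2 / 8 * l ≤ γ * ((1 - γ) * l) := by
      have h4 : γ ^ 2 / 8 ≤ γ * (1 - γ) := by nlinarith
      have h5 := mul_le_mul_of_nonneg_right h4 hl0.le
      linarith
    have h6 : γ * ((1 - γ) * l) ≤ γ * lm := mul_le_mul_of_nonneg_left h1 hγ.le
    have h7 : 0 ≤ 12 * γ ^ 2 * lm := by positivity
    linarith
  have b2 : 102 * Real.exp (-((2 * (1 - 4 * γ) * lm) * γ ^ 2 / 8)) ≤ 102 * E := by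
    apply mul_le_mul_of_nonneg_left _ (by norm_num)
    rw [hE]
    apply Real.exp_le_exp.2
    have h3 : l ≤ 2 * (1 - 4 * γ) * lm := by
      have h4 : 2 * (1 - 4 * γ) * ((1 - γ) * l) ≤ 2 * (1 - 4 * γ) * lm := mul_le_mul_of_nonneg_left h1 (by linarith)
      have h5 : 1 ≤ 2 * (1 - 4 * γ) * (1 - γ) := by nlinarith
      have h6 := mul_le_mul_of_nonneg_right h5 hl0.le
      linarith
    have h7 := mul_le_mul_of_nonneg_right h3 (show 0 ≤ γ ^ 2 / 8 by positivity)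
    linarith
  have b3 : m * Real.exp (-(20 * l)) ≤ E := by
    rw [← hme, ← Real.exp_add, hE]
    apply Real.exp_le_exp.2
    nlinarith
  have b4 : 111 * E ≤ Real.exp (-(3 * (γ ^ 2 / 64) * l)) := by
    have e : Real.exp (-(3 * (γ ^ 2 / 64) * l)) = Real.exp (5 * (γ ^ 2 / 64) * l) * E := by
      rw [hE, ← Real.exp_add]
      congr 1
      ring
    rw [e]
    apply mul_le_mul_of_nonneg_right _ (by rw [hE]; exact (Real.exp_pos _).le)
    have h3 : 5 ≤ 5 * (γ ^ 2 / 64) * l := by linarith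
    have h4 : Real.exp 5 ≤ Real.exp (5 * (γ ^ 2 / 64) * l) := Real.exp_le_exp.2 h3
    have h5 : (111 : ℝ) ≤ Real.exp 5 := by
      have e1 : Real.exp 5 = Real.exp 1 ^ 5 := by rw [← Real.exp_nat_mul]; norm_num
      have h6 := Real.exp_one_gt_d9
      rw [e1]
      have h7 : (2.7 : ℝ) ^ 5 ≤ Real.exp 1 ^ 5 := pow_le_pow_left₀ (by norm_num) (by linarith) 5
      refine le_trans ?_ h7
      norm_num
    linarith
  linarith

/-- The lower bound. -/
theorem win_lower (s : ℕ) (c δ : ℝ) (hc : 0 < c) (hδ : 0 < δ) (hδ1 : δ ≤ 1) : ∃ (A κ : ℝ) (K₀ : ℕ), 1 ≤ A ∧ 0 < κ ∧ κ ≤ δ / 8 ∧ 3 ≤ K₀ ∧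
    ∀ (d K : ℕ) (q : ℕ → ℕ) (x : ℕ → (Fin d → ℤ) → ℝ), Fam d (K + s) q x → K₀ ≤ K →
      ∀ M : ℕ, A * Real.log K ≤ M → (M : ℝ) ≤ Real.exp (κ * Real.log K) →
      (∀ N : ℕ, N + M ≤ K → c * M ≤ Vm d s (sh N q) (sh N x) M) →
      ∀ Y : ℕ, (∀ i < K + s, q i ≤ Y) → K ≤ Y → ∀ (μ : Fin d → ℤ) (L : Fin d → ℕ),
        (∀ i, (d + 1) * (Y : ℝ) ^ (A * Real.log K) ≤ L i) → ∀ σ : ℝ, (σ = 1 ∨ σ = -1) →
        zprop μ L (fun ν => ¬ ∃ N : ℕ, N + M ≤ K ∧ ∃ M' ≤ M, ∃ I : Fin s → Set ℝ, (∀ i, (I i).OrdConnected) ∧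
          (1 - δ) * √(2 * Vm d s (sh N q) (sh N x) M * Real.log K) ≤
            σ * (count (sh N x) I M' ν - cmean (sh N q) (sh N x) I M')) ≤ Real.exp (-(3 * κ * Real.log K)) := by
  classical
  obtain ⟨γ, hγd⟩ : ∃ γ : ℝ, γ = δ / 32 := ⟨_, rfl⟩
  have hγ0 : 0 < γ := by rw [hγd]; positivity
  have hγ1 : γ ≤ 1 / 32 := by rw [hγd]; linarith
  obtain ⟨θ, hθ⟩ : ∃ θ : ℝ, θ = γ ^ 2 / 8 := ⟨_, rfl⟩
  have hθ0 : 0 < θ := by rw [hθ]; positivity
  have hθ1 : θ ≤ 1 / 8 := by rw [hθ]; nlinarith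
  have hs0 : (0 : ℝ) ≤ s := Nat.cast_nonneg _
  obtain ⟨Cr, hCr1, H₂⟩ := Q69DL.rem_tail s
  obtain ⟨B, hB⟩ : ∃ B : ℕ, B = ⌈2304 * (s : ℝ) ^ 2 / (c * θ ^ 2)⌉₊ + ⌈Cr / (4 * c * θ)⌉₊ + 1 := ⟨_, rfl⟩
  have hB1 : 1 ≤ B := by omega
  have hBr : (1 : ℝ) ≤ B := by exact_mod_cast hB1
  have hBa : 2304 * (s : ℝ) ^ 2 ≤ c * θ ^ 2 * B := by
    have h1 : 2304 * (s : ℝ) ^ 2 / (c * θ ^ 2) ≤ B := by
      refine (Nat.le_ceil _).trans ?_
      exact_mod_cast (show ⌈2304 * (s : ℝ) ^ 2 / (c * θ ^ 2)⌉₊ ≤ B by omega)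
    rw [div_le_iff₀ (by positivity)] at h1
    linarith
  have hBb : Cr ≤ 4 * c * θ * B := by
    have h1 : Cr / (4 * c * θ) ≤ B := by
      refine (Nat.le_ceil _).trans ?_
      exact_mod_cast (show ⌈Cr / (4 * c * θ)⌉₊ ≤ B by omega)
    rw [div_le_iff₀ (by positivity)] at h1
    linarith
  obtain ⟨A₂, hA₂, H₃⟩ := dat_windows s B hB1
  obtain ⟨a₁, ha₁⟩ : ∃ a₁ : ℝ, a₁ = 16384 * (B : ℝ) ^ 2 / (γ ^ 4 * c) := ⟨_, rfl⟩
  have ha₁0 : 0 ≤ a₁ := by rw [ha₁]; positivity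
  obtain ⟨K₀, hK₀3, hK₀⟩ := ev_log (64 / γ ^ 2)
  refine ⟨2 * A₂ + 43 * (s + 1) + 11 * B + a₁ + 1, γ ^ 2 / 64, K₀, ?_, by positivity, ?_, hK₀3, ?_⟩
  · have : 0 ≤ 2 * A₂ := by positivity
    have : 0 ≤ 43 * ((s : ℝ) + 1) := by positivity
    have : 0 ≤ 11 * (B : ℝ) := by positivity
    linarith
  · rw [hγd]
    nlinarith
  intro d K q x hF hK M hM hMκ hV Y hY hKY μ L hL σ hσ
  have hσ1 : |σ| = 1 := by rcases hσ with h | h <;> rw [h] <;> norm_num
  have hlog := hK₀ K hK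
  have hK3 : 3 ≤ K := by omega
  have hY2 : 2 ≤ Y := by omega
  have hY1 : (1 : ℝ) ≤ Y := by exact_mod_cast (show 1 ≤ Y by omega)
  obtain ⟨l, hl⟩ : ∃ l : ℝ, l = Real.log K := ⟨_, rfl⟩
  rw [← hl] at hlog hM hMκ hL ⊢
  have hγ2 : 0 < γ ^ 2 := by positivity
  have hl64 : 64 ≤ γ ^ 2 * l := by
    have h1 := hlog
    rw [div_le_iff₀ hγ2] at h1
    linarith
  have hl4 : 4 / γ ≤ l := by
    rw [div_le_iff₀ hγ0]
    have h1 : 0 ≤ γ * l := by
      have : 0 ≤ l := le_trans (by positivity) hlog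
      positivity
    nlinarith
  have hl1 : 1 ≤ l := by
    have h1 : 128 ≤ 4 / γ := by
      rw [le_div_iff₀ hγ0]
      linarith
    linarith
  have hl0 : 0 < l := by linarith
  have hMr : 11 * (B : ℝ) * l + a₁ * l ≤ M := by
    refine le_trans ?_ hM
    have h1 : 0 ≤ (2 * A₂ + 43 * ((s : ℝ) + 1) + 1) * l := by positivity
    nlinarith
  have hM0 : (0 : ℝ) < M := by
    have h1 : 0 < 11 * (B : ℝ) * l := by positivity
    have h2 : 0 ≤ a₁ * l := by positivity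
    linarith
  have hBM : B ≤ M := by
    have h1 : (B : ℝ) ≤ M := by
      have h2 : 0 ≤ a₁ * l := by positivity
      nlinarith
    exact_mod_cast h1
  have hsides : ∀ t : ℝ, t ≤ (2 * A₂ + 43 * (s + 1) + 11 * B + a₁ + 1) * l → ∀ i, (d + 1) * (Y : ℝ) ^ t ≤ L i := by
    intro t ht i
    refine le_trans ?_ (hL i)
    apply mul_le_mul_of_nonneg_left _ (by positivity)
    exact Real.rpow_le_rpow_of_exponent_le hY1 ht
  obtain ⟨hm1, hmlog, hmle⟩ := num_windows γ (γ ^ 2 / 64) l K M B hγ0 hγ1 (by positivity) (by nlinarith) hl hl4 (by omega) (by omega) hBM hMκ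
  obtain ⟨D', hD'⟩ : ∃ D' : ℕ, D' = M / B + 1 := ⟨_, rfl⟩
  obtain ⟨D, hD⟩ : ∃ D : ℕ, D = B * D' := ⟨_, rfl⟩
  rw [← hD', ← hD] at hm1 hmlog hmle
  have hMD : M < D := by
    rw [hD, hD']
    exact Nat.lt_mul_div_succ M (by omega)
  obtain ⟨m, hm⟩ : ∃ m : ℕ, m = K / D := ⟨_, rfl⟩
  rw [← hm] at hm1 hmlog hmle
  have hmD : m * D ≤ K := by rw [hm]; exact Nat.div_mul_le_self K D
  obtain ⟨Λ, hΛ⟩ : ∃ Λ : ℝ, Λ = 2 * (1 - 4 * γ) * Real.log m := ⟨_, rfl⟩
  have hmlog0 : 0 ≤ Real.log m := le_trans (mul_nonneg (by linarith) hl0.le) hmlog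
  have hΛge : 2 * (1 - 4 * γ) * ((1 - γ) * l) ≤ Λ := by
    rw [hΛ]
    exact mul_le_mul_of_nonneg_left hmlog (by linarith)
  have hΛl : l ≤ Λ := by
    refine le_trans ?_ hΛge
    have h5 : 1 ≤ 2 * (1 - 4 * γ) * (1 - γ) := by nlinarith
    have h6 := mul_le_mul_of_nonneg_right h5 hl0.le
    linarith
  have hΛ2 : Λ ≤ 2 * l := by
    rw [hΛ]
    have h1 : 2 * (1 - 4 * γ) * Real.log m ≤ 2 * 1 * l := by
      apply mul_le_mul (by linarith) hmle hmlog0 (by norm_num)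
    linarith
  -- the windows
  obtain ⟨Na, hNa⟩ : ∃ Na : ℕ → ℕ, Na = fun a => D * a := ⟨_, rfl⟩
  have hNaK : ∀ a : Fin m, Na a + D ≤ K := by
    intro a
    rw [hNa]
    have h1 : (a : ℕ) + 1 ≤ m := a.2
    calc D * (a : ℕ) + D = D * ((a : ℕ) + 1) := by ring
      _ ≤ D * m := Nat.mul_le_mul_left _ h1
      _ ≤ K := by rw [mul_comm]; exact hmD
  have hNaM : ∀ a : Fin m, Na a + M ≤ K := fun a => by have := hNaK a; omega
  have hNaB : ∀ a : Fin m, B ∣ Na a := by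
    intro a
    rw [hNa, hD]
    exact Dvd.intro (D' * a) (by ring)
  have hatt : ∀ a : Fin m, ∃ M' ≤ M, ∃ I : Fin s → Set ℝ, (∀ i, (I i).OrdConnected) ∧
      (1 - θ / 4) * Vm d s (sh (Na a) q) (sh (Na a) x) M < vb (sh (Na a) q) (sh (Na a) x) I M' := by
    intro a
    apply Vm_attain
    have h1 := hV (Na a) (hNaM a)
    have h3 : 0 < Vm d s (sh (Na a) q) (sh (Na a) x) M := lt_of_lt_of_le (by positivity) h1
    nlinarith [mul_pos hθ0 h3]
  choose Ms hMs I hI hvb using hatt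
  obtain ⟨g, hg⟩ : ∃ g : Fin m → ℕ → (Fin d → ℤ) → ℝ, g = fun a : Fin m => rst (Ico (Na a) (Na a + Ms a)) (gi x (I a)) := ⟨_, rfl⟩
  have hgD : ∀ a : Fin m, Dat d s K q (g a) := by
    intro a
    rw [hg]
    exact rst_dat (dat hF (I a)) _
  have hgv : ∀ a : Fin m, vr d s K q (g a) (inn s K B) =
      vr d s M (sh (Na a) q) (gi (sh (Na a) x) (I a)) (inn s M B ∩ Ico 0 (Ms a)) := by
    intro a
    rw [hg]
    exact win_vr hF (I a) (hNaM a) (hMs a) (hNaB a)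
  have hgs : ∀ (a : Fin m) (ν : Fin d → ℤ), ∑ k ∈ inn s K B, G s q (g a) k ν =
      ∑ k ∈ inn s M B ∩ Ico 0 (Ms a), G s (sh (Na a) q) (gi (sh (Na a) x) (I a)) k ν := by
    intro a ν
    rw [hg]
    exact win_sum hF (I a) (hNaM a) (hMs a) (hNaB a) ν
  have hvr : ∀ a : Fin m, (1 - θ) * Vm d s (sh (Na a) q) (sh (Na a) x) M ≤
      vr d s M (sh (Na a) q) (gi (sh (Na a) x) (I a)) (inn s M B ∩ Ico 0 (Ms a)) := by
    intro a
    exact level_var (fam_sh hF (hNaM a)) (I a) 0 (Ms a) M B (Nat.zero_le _) (hMs a) le_rfl (by omega) hBM c θ _ hc hθ0 hθ1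
      (hV _ (hNaM a)) (hvb a).le (by rw [Nat.cast_zero, mul_zero]; positivity) hBa
  have hE3 := H₃ d K q m hm1 g hgD (by
    intro a b hab j
    have key : ∀ a : Fin m, ¬ (D' * (a : ℕ) ≤ j ∧ j < D' * ((a : ℕ) + 1)) → ∀ k ∈ blk s K B j, ∀ ν, g a k ν = 0 := by
      intro a ha k hk ν
      rw [hg]
      simp only
      unfold rst
      rw [if_neg]
      intro hk2
      apply ha
      rw [blk, mem_filter] at hk
      rw [mem_Ico, hNa, hD] at hk2
      simp only at hk2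
      have h1 := hMs a
      have h4 : k / B = j := hk.2.1
      have hk3 : k < B * (D' * ((a : ℕ) + 1)) := by
        have e : B * (D' * ((a : ℕ) + 1)) = B * D' * a + B * D' := by ring
        rw [e, ← hD]
        rw [← hD] at hk2
        omega
      have hk4 : B * (D' * (a : ℕ)) ≤ k := by
        rw [← mul_assoc]
        exact hk2.1
      constructor
      · rw [← h4, Nat.le_div_iff_mul_le (by omega), mul_comm]
        exact hk4
      · rw [← h4, Nat.div_lt_iff_lt_mul (by omega), mul_comm]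
        exact hk3
    by_cases ha : D' * (a : ℕ) ≤ j ∧ j < D' * ((a : ℕ) + 1)
    · right
      apply key b
      intro hb
      rcases Nat.lt_or_gt_of_ne (fun h => hab (Fin.ext h)) with h | h
      · have h1 : D' * ((a : ℕ) + 1) ≤ D' * (b : ℕ) := Nat.mul_le_mul_left _ (by omega)
        omega
      · have h1 : D' * ((b : ℕ) + 1) ≤ D' * (a : ℕ) := Nat.mul_le_mul_left _ (by omega)
        omega
    · left
      exact key a ha) γ Λ hγ0 (by linarith) (by nlinarith) (by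
    intro a
    rw [hgv]
    have h1 := hvr a
    have h2 := hV _ (hNaM a)
    have h4 : c / 2 * M ≤ vr d s M (sh (Na a) q) (gi (sh (Na a) x) (I a)) (inn s M B ∩ Ico 0 (Ms a)) := by
      refine le_trans ?_ h1
      have h6 : 0 ≤ c * (M : ℝ) := by positivity
      calc c / 2 * M = 1 / 2 * (c * M) := by ring
        _ ≤ (1 - θ) * Vm d s (sh (Na a) q) (sh (Na a) x) M := mul_le_mul (by linarith) h2 h6 (by linarith)
    calc 4096 * (B : ℝ) ^ 2 * Λ ≤ 4096 * B ^ 2 * (2 * l) := mul_le_mul_of_nonneg_left hΛ2 (by positivity)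
      _ = γ ^ 4 * (c / 2 * (a₁ * l)) := by
          rw [ha₁]
          field_simp
          ring
      _ ≤ γ ^ 4 * (c / 2 * M) := by
          apply mul_le_mul_of_nonneg_left _ (by positivity)
          apply mul_le_mul_of_nonneg_left _ (by positivity)
          have : 0 ≤ 11 * (B : ℝ) * l := by positivity
          linarith
      _ ≤ _ := mul_le_mul_of_nonneg_left h4 (by positivity)) Y hY2 hY hKY μ L (hsides _ (by
        have h1 : A₂ * Λ ≤ A₂ * (2 * l) := mul_le_mul_of_nonneg_left hΛ2 hA₂.le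
        have h2 : 0 ≤ (43 * ((s : ℝ) + 1) + 11 * B + a₁ + 1) * l := by positivity
        nlinarith)) σ hσ
  have hE2 : ∀ a : Fin m, zprop μ L (fun ν => √l * √(Cr * M / B) ≤
      |∑ k ∈ rem s M B, G s (sh (Na a) q) (rst (Ico 0 (Ms a)) (gi (sh (Na a) x) (I a))) k ν|) ≤ Real.exp (-(20 * l)) := by
    intro a
    have hF' := fam_sh hF (hNaM a)
    have h1 := H₂ d M (sh (Na a) q) (rst (Ico 0 (Ms a)) (gi (sh (Na a) x) (I a))) (rst_dat (dat hF' (I a)) _)
      (rst_nonneg (fun k _ ν => gi_nonneg (sh (Na a) x) (I a) k ν) _) B (by omega) hBM (√l) (Cr * M / B)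
      (by rw [Real.one_le_sqrt]; exact hl1) (by
        rw [Real.sq_sqrt hl0.le]
        have h2 : 11 * l ≤ (M : ℝ) / B := by
          rw [le_div_iff₀ (by linarith)]
          have : 0 ≤ a₁ * l := by positivity
          linarith
        have h3 : 0 ≤ (s : ℝ) * (M / B) := by positivity
        nlinarith) (by
        rw [div_mul_cancel₀]
        linarith) Y hY2 (fun i hi => hY (Na a + i) (by have := hNaM a; omega)) (by have := hNaM a; omega) μ L (hsides _ (by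
        rw [Real.sq_sqrt hl0.le]
        have h2 : 0 ≤ (2 * A₂ + 11 * B + a₁ + 1) * l := by positivity
        nlinarith))
    rwa [Real.sq_sqrt hl0.le] at h1
  -- the union
  have hunion : zprop μ L (fun ν => ¬ ∃ N : ℕ, N + M ≤ K ∧ ∃ M' ≤ M, ∃ I : Fin s → Set ℝ, (∀ i, (I i).OrdConnected) ∧
          (1 - δ) * √(2 * Vm d s (sh N q) (sh N x) M * l) ≤
            σ * (count (sh N x) I M' ν - cmean (sh N q) (sh N x) I M')) ≤
      zprop μ L (fun ν => ∀ a, σ * ∑ k ∈ inn s K B, G s q (g a) k ν < √(Λ * vr d s K q (g a) (inn s K B)) / (1 + γ)) +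
      ∑ a : Fin m, zprop μ L (fun ν => √l * √(Cr * M / B) ≤
        |∑ k ∈ rem s M B, G s (sh (Na a) q) (rst (Ico 0 (Ms a)) (gi (sh (Na a) x) (I a))) k ν|) := by
    refine (Q69DL.zprop_or (Q := fun ν => ∀ a, σ * ∑ k ∈ inn s K B, G s q (g a) k ν < √(Λ * vr d s K q (g a) (inn s K B)) / (1 + γ))
      (R := fun ν => ∃ a ∈ (univ : Finset (Fin m)), √l * √(Cr * M / B) ≤
        |∑ k ∈ rem s M B, G s (sh (Na a) q) (rst (Ico 0 (Ms a)) (gi (sh (Na a) x) (I a))) k ν|) ?_).trans ?_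
    · intro ν hbad
      by_contra hcon
      push Not at hcon
      obtain ⟨⟨a, ha⟩, hno⟩ := hcon
      have hno2 := hno a (mem_univ a)
      apply hbad
      refine ⟨Na a, hNaM a, Ms a, hMs a, I a, hI a, ?_⟩
      have hγδ : 1 - 32 * γ = 1 - δ := by rw [hγd]; ring
      rw [← hγδ]
      rw [hgv, hgs] at ha
      exact win_concl (fam_sh hF (hNaM a)) (I a) (Ms a) B (hMs a) (by omega) hBM c θ γ Λ l Cr σ hc hγ0 hγ1 hθ
        (hV _ (hNaM a)) (hvb a).le hBa hBb hl0 hΛge hσ1 ν ha hno2.le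
    · apply add_le_add le_rfl
      exact zprop_union μ L univ _ _ fun ν h => h
  refine hunion.trans ?_
  have hsum : ∑ a : Fin m, zprop μ L (fun ν => √l * √(Cr * M / B) ≤
        |∑ k ∈ rem s M B, G s (sh (Na a) q) (rst (Ico 0 (Ms a)) (gi (sh (Na a) x) (I a))) k ν|) ≤ m * Real.exp (-(20 * l)) := by
    calc _ ≤ ∑ _a : Fin m, Real.exp (-(20 * l)) := sum_le_sum fun a _ => hE2 a
      _ = _ := by rw [sum_const, card_univ, Fintype.card_fin, nsmul_eq_mul]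
  have h1 := add_le_add hE3 hsum
  refine h1.trans ?_
  rw [hΛ]
  exact low_prob γ l (Real.log m) m hγ0 hγ1 hm1 rfl hmlog hmle hlog

end Pool.Agent.H46.SI
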