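import Pool.Agent.H46.SW.Uni
import Pool.Agent.H46.SW.LoB

/-!
# Short windows of primes: the shifted family
-/

set_option autoImplicit false

namespace Pool.Agent.H46.SI

open Finset Pool.Agent.Q255.EB
open Q282LT (zbox zprop avg ZPer mem_zbox card_zbox)
open Q285MD (wm tm vr Dat G avg_mono avg_add avg_smul avg_const avg_sum avg_dvd avg_abs blk inn rem Qb F)
open Pool.Agent.Q277.EB (gi gi_nonneg gi_le dat dev_eq)
open Q69DL (rst rst_dat rst_nonneg)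
open Pool.Agent.H46.SW

variable {d s : ℕ} {q : ℕ → ℕ} {x : ℕ → (Fin d → ℤ) → ℝ}

/-- the shifted sequence -/
def sh {α : Type} (N : ℕ) (f : ℕ → α) (k : ℕ) : α := f (N + k)

lemma fam_sh {K M N : ℕ} (h : Fam d (K + s) q x) (hN : N + M ≤ K) : Fam d (M + s) (sh N q) (sh N x) :=
  ⟨fun k hk => h.q1 (N + k) (by omega),
    fun i hi j hj hij => h.cop (N + i) (by omega) (N + j) (by omega) (by omega),
    fun k hk => h.per (N + k) (by omega)⟩

lemma wm_sh (q : ℕ → ℕ) (s N k : ℕ) : wm (sh N q) s k = wm q s (N + k) := by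
  unfold wm sh
  rw [prod_Ico_add]
  congr 2 <;> omega

lemma gi_sh (x : ℕ → (Fin d → ℤ) → ℝ) (I : Fin s → Set ℝ) (N : ℕ) : gi (sh N x) I = sh N (gi x I) := by
  funext k ν
  have h : (∀ i : Fin s, sh N x (k + i) ν ∈ I i) ↔ ∀ i : Fin s, x (N + k + i) ν ∈ I i := by
    refine forall_congr' fun i => ?_
    unfold sh
    rw [add_assoc]
  show gi (sh N x) I k ν = gi x I (N + k) ν
  unfold gi
  by_cases h2 : ∀ i : Fin s, x (N + k + i) ν ∈ I i
  · rw [if_pos h2, if_pos (h.2 h2)]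
  · rw [if_neg h2, if_neg (fun h3 => h2 (h.1 h3))]

lemma G_sh (g : ℕ → (Fin d → ℤ) → ℝ) (N k : ℕ) (ν : Fin d → ℤ) : G s (sh N q) (sh N g) k ν = G s q g (N + k) ν := by
  unfold G
  rw [wm_sh]
  rfl

lemma dat_sh {K M N : ℕ} {g : ℕ → (Fin d → ℤ) → ℝ} (h : Dat d s K q g) (hN : N + M ≤ K) : Dat d s M (sh N q) (sh N g) where
  q1 := fun i hi => h.q1 (N + i) (by omega)
  cop := fun i hi j hj hij => h.cop (N + i) (by omega) (N + j) (by omega) (by omega)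
  per := fun k hk => by
    rw [wm_sh]
    exact h.per (N + k) (by omega)
  bd := fun k hk => h.bd (N + k) (by omega)

lemma inn_sh {K M M' N B : ℕ} (hN : N + M ≤ K) (hM : M' ≤ M) (hB : B ∣ N) :
    inn s K B ∩ Ico N (N + M') = (inn s M B ∩ Ico 0 M').map (addLeftEmbedding N) := by
  obtain ⟨c, rfl⟩ := hB
  ext k
  simp only [mem_inter, mem_map, addLeftEmbedding_apply, inn, mem_filter, mem_range, mem_Ico]
  constructor
  · rintro ⟨⟨h1, h2⟩, h3, h4⟩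
    refine ⟨k - B * c, ⟨⟨by omega, ?_⟩, by omega, by omega⟩, by omega⟩
    have h5 : k % B = (k - B * c) % B := by
      conv_lhs => rw [← Nat.add_sub_cancel' h3]
      rw [Nat.mul_add_mod]
    rw [← h5]
    exact h2
  · rintro ⟨l, ⟨⟨h1, h2⟩, h3, h4⟩, rfl⟩
    refine ⟨⟨by omega, ?_⟩, by omega, by omega⟩
    rw [Nat.mul_add_mod]
    exact h2

lemma sum_sh (g : ℕ → (Fin d → ℤ) → ℝ) (N : ℕ) (X : Finset ℕ) (ν : Fin d → ℤ) :
    ∑ k ∈ X.map (addLeftEmbedding N), G s q g k ν = ∑ k ∈ X, G s (sh N q) (sh N g) k ν := by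
  rw [sum_map]
  refine sum_congr rfl fun k _ => ?_
  rw [addLeftEmbedding_apply, G_sh]

lemma tm_sh_dvd {K M N : ℕ} (hN : N + M ≤ K) : tm (sh N q) (M + s) ∣ tm q (K + s) := by
  unfold tm sh
  have h1 : ∏ i ∈ range (M + s), q (N + i) = ∏ i ∈ Ico N (N + (M + s)), q i := by
    rw [prod_Ico_eq_prod_range]
    simp
  rw [h1]
  refine prod_dvd_prod_of_subset _ _ _ fun i hi => ?_
  rw [mem_Ico] at hi
  rw [mem_range]
  omega

lemma vr_sh {K M N : ℕ} {g : ℕ → (Fin d → ℤ) → ℝ} (h : Dat d s K q g) (hN : N + M ≤ K) (X : Finset ℕ) (hX : X ⊆ range M) :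
    vr d s K q g (X.map (addLeftEmbedding N)) = vr d s M (sh N q) (sh N g) X := by
  unfold vr
  have e : (fun ν => (∑ k ∈ X.map (addLeftEmbedding N), G s q g k ν) ^ 2) =
      fun ν => (∑ k ∈ X, G s (sh N q) (sh N g) k ν) ^ 2 := by
    funext ν
    rw [sum_sh]
  rw [e]
  have hD := dat_sh h hN
  apply avg_dvd h.tm_pos (tm_sh_dvd hN)
  have h1 : ZPer (tm (sh N q) (M + s)) (fun ν => ∑ k ∈ X, G s (sh N q) (sh N g) k ν) :=
    Q285MD.ZPer.sum fun k hk => Q285MD.ZPer.of_dvd (hD.wm_dvd (mem_range.1 (hX hk))) (hD.G_per (mem_range.1 (hX hk)))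
  intro ν ν' hν
  have h2 : ∑ k ∈ X, G s (sh N q) (sh N g) k ν = ∑ k ∈ X, G s (sh N q) (sh N g) k ν' := h1 ν ν' hν
  show (∑ k ∈ X, G s (sh N q) (sh N g) k ν) ^ 2 = (∑ k ∈ X, G s (sh N q) (sh N g) k ν') ^ 2
  rw [h2]

/-- the functions of a window: the sum over the inner indices -/
lemma win_sum {K M M' N B : ℕ} (hF : Fam d (K + s) q x) (I : Fin s → Set ℝ) (hN : N + M ≤ K) (hM : M' ≤ M) (hB : B ∣ N) (ν : Fin d → ℤ) :
    ∑ k ∈ inn s K B, G s q (rst (Ico N (N + M')) (gi x I)) k ν =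
      ∑ k ∈ inn s M B ∩ Ico 0 M', G s (sh N q) (gi (sh N x) I) k ν := by
  rw [rst_sum (dat hF I) (Ico N (N + M')) (inn s K B) (filter_subset _ _) ν, inn_sh hN hM hB, sum_sh, gi_sh]

lemma win_vr {K M M' N B : ℕ} (hF : Fam d (K + s) q x) (I : Fin s → Set ℝ) (hN : N + M ≤ K) (hM : M' ≤ M) (hB : B ∣ N) :
    vr d s K q (rst (Ico N (N + M')) (gi x I)) (inn s K B) =
      vr d s M (sh N q) (gi (sh N x) I) (inn s M B ∩ Ico 0 M') := by
  rw [rst_vr (dat hF I) (Ico N (N + M')) (inn s K B) (filter_subset _ _), inn_sh hN hM hB,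
    vr_sh (dat hF I) hN (inn s M B ∩ Ico 0 M') (inter_subset_left.trans (filter_subset _ _)), gi_sh]

/-- one window -/
lemma win_concl {M : ℕ} (hF : Fam d (M + s) q x) (I : Fin s → Set ℝ) (M' B : ℕ) (h1 : M' ≤ M)
    (hB : 0 < B) (hBM : B ≤ M) (c θ γ Λ l Cr σ : ℝ) (hc : 0 < c) (hγ : 0 < γ) (hγ1 : γ ≤ 1 / 32) (hθ : θ = γ ^ 2 / 8)
    (hV : c * M ≤ Vm d s q x M) (hvb : (1 - θ / 4) * Vm d s q x M ≤ vb q x I M')
    (hB2 : 2304 * (s : ℝ) ^ 2 ≤ c * θ ^ 2 * B) (hCr : Cr ≤ 4 * c * θ * B) (hl : 0 < l)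
    (hΛ : 2 * (1 - 4 * γ) * ((1 - γ) * l) ≤ Λ)
    (hσ : |σ| = 1) (ν : Fin d → ℤ)
    (E0 : √(Λ * vr d s M q (gi x I) (inn s M B ∩ Ico 0 M')) / (1 + γ) ≤ σ * ∑ k ∈ inn s M B ∩ Ico 0 M', G s q (gi x I) k ν)
    (E2 : |∑ k ∈ rem s M B, G s q (rst (Ico 0 M') (gi x I)) k ν| ≤ √l * √(Cr * M / B)) :
    (1 - 32 * γ) * √(2 * Vm d s q x M * l) ≤ σ * (count x I M' ν - cmean q x I M') := by
  classical
  have hD := dat (K := M) hF I
  have hBr : (0 : ℝ) < B := by exact_mod_cast hB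
  have hs : (0 : ℝ) ≤ s := Nat.cast_nonneg _
  have hKl : (B : ℝ) ≤ M := by exact_mod_cast hBM
  have hKl0 : (0 : ℝ) < M := by linarith
  obtain ⟨V, hVe⟩ : ∃ V : ℝ, V = Vm d s q x M := ⟨_, rfl⟩
  rw [← hVe] at hV hvb ⊢
  have hV0 : 0 < V := lt_of_lt_of_le (by positivity) hV
  have hγ2 : 0 < γ ^ 2 := by positivity
  have hθ0 : 0 < θ := by rw [hθ]; positivity
  have hθ1 : θ ≤ 1 / 8 := by rw [hθ]; nlinarith
  have hvr := level_var hF I 0 M' M B (Nat.zero_le _) h1 le_rfl hB hBM c θ V hc hθ0 hθ1 hV hvb (by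
    rw [Nat.cast_zero, mul_zero]; positivity) hB2
  -- the decomposition
  have hsplit2 : range M' = (inn s M B ∩ Ico 0 M') ∪ (rem s M B ∩ Ico 0 M') := by
    rw [← union_inter_distrib_right, Q285MD.inn_rem]
    ext k
    rw [mem_inter, mem_range, mem_range, mem_Ico]
    omega
  have hdis2 : Disjoint (inn s M B ∩ Ico 0 M') (rem s M B ∩ Ico 0 M') :=
    Disjoint.mono inter_subset_left inter_subset_left (Q285MD.disj s M B)
  rw [rst_sum hD (Ico 0 M') (rem s M B) (filter_subset _ _) ν] at E2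
  have e0 : count x I M' ν - cmean q x I M' =
      ∑ k ∈ inn s M B ∩ Ico 0 M', G s q (gi x I) k ν + ∑ k ∈ rem s M B ∩ Ico 0 M', G s q (gi x I) k ν := by
    rw [dev_eq, ← sum_union hdis2, ← hsplit2]
  rw [e0]
  have f2 : -(√l * √(Cr * M / B)) ≤ σ * ∑ k ∈ rem s M B ∩ Ico 0 M', G s q (gi x I) k ν := by
    have h4 : |σ * ∑ k ∈ rem s M B ∩ Ico 0 M', G s q (gi x I) k ν| ≤ √l * √(Cr * M / B) := by
      rw [abs_mul, hσ, one_mul]
      exact E2
    exact (abs_le.1 h4).1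
  have hsl : 0 ≤ √l := Real.sqrt_nonneg _
  have g2 : √(Cr * M / B) ≤ 2 * √(θ * V) := by
    have h4 : Cr * M / B ≤ 2 ^ 2 * (θ * V) := by
      rw [div_le_iff₀ hBr]
      calc Cr * M ≤ 4 * c * θ * B * M := mul_le_mul_of_nonneg_right hCr hKl0.le
        _ = 4 * θ * B * (c * M) := by ring
        _ ≤ 4 * θ * B * V := mul_le_mul_of_nonneg_left hV (by positivity)
        _ = _ := by ring
    have h5 := Real.sqrt_le_sqrt h4
    rwa [Real.sqrt_mul (by norm_num), Real.sqrt_sq (by norm_num)] at h5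
  have g3 : √l * √(Cr * M / B) ≤ 4 * √l * √(θ * V) := by
    have h5 := mul_le_mul_of_nonneg_left g2 hsl
    have h6 : 0 ≤ √l * √(θ * V) := by positivity
    nlinarith
  have hΛ0 : 0 ≤ Λ := by
    refine le_trans ?_ hΛ
    have : 0 ≤ (1 - γ) * l := mul_nonneg (by linarith) hl.le
    have : 0 ≤ (1 - 4 * γ) := by linarith
    positivity
  have g4 : √(Λ * (V - θ * V)) / (1 + γ) ≤ σ * ∑ k ∈ inn s M B ∩ Ico 0 M', G s q (gi x I) k ν := by
    refine le_trans ?_ E0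
    apply div_le_div_of_nonneg_right _ (by linarith)
    apply Real.sqrt_le_sqrt
    apply mul_le_mul_of_nonneg_left _ hΛ0
    linarith
  have g5 : √(Λ * (V - θ * V)) / (1 + γ) - 4 * √l * √(θ * V) ≤
      σ * (∑ k ∈ inn s M B ∩ Ico 0 M', G s q (gi x I) k ν + ∑ k ∈ rem s M B ∩ Ico 0 M', G s q (gi x I) k ν) := by
    rw [mul_add]
    linarith
  exact Pool.Agent.K4H16.CG.low_final γ V (θ * V) l Λ l _ hγ hγ1 hV0 (by positivity)
    (by rw [hθ]) hl hΛ (by nlinarith) g5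

end Pool.Agent.H46.SI
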