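import Pool.Agent.H46.SI.Sh

/-!
# Short windows of primes: the upper bound for one window
-/

set_option autoImplicit false

namespace Pool.Agent.H46.SI

open Finset Pool.Agent.Q255.EB
open Q282LT (zbox zprop avg ZPer mem_zbox card_zbox)
open Q285MD (wm tm vr Dat G avg_mono avg_add avg_smul avg_const avg_sum avg_dvd avg_abs blk inn rem Qb F)
open Pool.Agent.Q277.EB (gi gi_nonneg gi_le dat dev_eq)
open Q69DL (rst rst_dat rst_nonneg)
open Pool.Agent.H46.SW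

/-- `log K` is large -/
lemma ev_log (B : ℝ) : ∃ K₀ : ℕ, 3 ≤ K₀ ∧ ∀ K : ℕ, K₀ ≤ K → B ≤ Real.log K := by
  obtain ⟨N, hN⟩ := exists_nat_ge (Real.exp B)
  refine ⟨N + 3, by omega, ?_⟩
  intro K hK
  have h1 : (N : ℝ) ≤ K := by exact_mod_cast (show N ≤ K by omega)
  have h2 : (0 : ℝ) < K := by exact_mod_cast (show 0 < K by omega)
  rw [Real.le_log_iff_exp_le h2]
  linarith

/-- the upper bound for one window -/
theorem win_upper (s : ℕ) (c δ : ℝ) (hc : 0 < c) (hδ : 0 < δ) (hδ1 : δ ≤ 1) : ∃ (A : ℝ) (K₀ : ℕ), 1 ≤ A ∧ 3 ≤ K₀ ∧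
    ∀ (d K : ℕ) (q : ℕ → ℕ) (x : ℕ → (Fin d → ℤ) → ℝ), Fam d (K + s) q x → K₀ ≤ K →
      ∀ N M : ℕ, N + M ≤ K → A * Real.log K ≤ M → c * M ≤ Vm d s (sh N q) (sh N x) M →
      ∀ Y : ℕ, (∀ i < K + s, q i ≤ Y) → K ≤ Y → ∀ (μ : Fin d → ℤ) (L : Fin d → ℕ),
        (∀ i, (d + 1) * (Y : ℝ) ^ (A * Real.log K) ≤ L i) →
        zprop μ L (fun ν => ∃ M' ≤ M, ∃ I : Fin s → Set ℝ, (∀ i, (I i).OrdConnected) ∧
          (1 + δ) * √(2 * Vm d s (sh N q) (sh N x) M * Real.log K) ≤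
            |count (sh N x) I M' ν - cmean (sh N q) (sh N x) I M'|) ≤ Real.exp (-((1 + δ) * Real.log K)) := by
  obtain ⟨y₀, δ₀, A₁, hy₀, hδ₀, hA₁, H₁⟩ := Q69DL.main_upper s c (δ / 4) hc (by positivity)
  obtain ⟨K₀, hK₀3, hK₀⟩ := ev_log (y₀ ^ 2 + 1)
  refine ⟨8 * A₁ + 8 / δ₀ ^ 2 + 1, K₀, by
    have : 0 ≤ 8 * A₁ := by positivity
    have : 0 ≤ 8 / δ₀ ^ 2 := by positivity
    linarith, hK₀3, ?_⟩
  intro d K q x hF hK N M hNM hM hV Y hY hKY μ L hL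
  have hlog := hK₀ K hK
  have hF' := fam_sh hF hNM
  obtain ⟨l, hl⟩ : ∃ l : ℝ, l = Real.log K := ⟨_, rfl⟩
  rw [← hl] at hlog hM hL ⊢
  obtain ⟨V, hVe⟩ : ∃ V : ℝ, V = Vm d s (sh N q) (sh N x) M := ⟨_, rfl⟩
  rw [← hVe] at hV ⊢
  have hl1 : 1 ≤ l := by nlinarith [sq_nonneg y₀]
  have hl0 : 0 < l := by linarith
  have hY1 : (1 : ℝ) ≤ Y := by exact_mod_cast (show 1 ≤ Y by omega)
  obtain ⟨y, hy⟩ : ∃ y : ℝ, y = (1 + δ) * √(2 * l) := ⟨_, rfl⟩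
  have hs2 : √(2 * l) ^ 2 = 2 * l := Real.sq_sqrt (by positivity)
  have hy2 : y ^ 2 = (1 + δ) ^ 2 * (2 * l) := by rw [hy, mul_pow, hs2]
  have hyy : y₀ ≤ y := by
    have h1 : y₀ ≤ √(2 * l) := Real.le_sqrt_of_sq_le (by linarith [sq_nonneg y₀])
    have h2 : 0 ≤ √(2 * l) := Real.sqrt_nonneg _
    rw [hy]
    nlinarith
  have hy8 : y ^ 2 ≤ 8 * l := by
    rw [hy2]
    have h4 : (1 + δ) ^ 2 ≤ 4 := by nlinarith
    have h5 := mul_le_mul_of_nonneg_right h4 (show 0 ≤ 2 * l by positivity)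
    linarith
  have hV0 : 0 ≤ V := by
    refine le_trans ?_ hV
    positivity
  have hMr : 8 / δ₀ ^ 2 * l ≤ M := by
    refine le_trans ?_ hM
    have h1 : 0 ≤ (8 * A₁ + 1) * l := by positivity
    nlinarith
  have hyM : y ≤ δ₀ * √M := by
    have h1 : y ^ 2 ≤ δ₀ ^ 2 * M := by
      have h2 : 8 * l ≤ δ₀ ^ 2 * M := by
        have h3 := mul_le_mul_of_nonneg_left hMr (show 0 ≤ δ₀ ^ 2 by positivity)
        have h4 : δ₀ ^ 2 * (8 / δ₀ ^ 2 * l) = 8 * l := by field_simp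
        linarith
      linarith
    have h2 : √(y ^ 2) ≤ √(δ₀ ^ 2 * M) := Real.sqrt_le_sqrt h1
    rw [Real.sqrt_sq (by linarith), Real.sqrt_mul (by positivity), Real.sqrt_sq hδ₀.le] at h2
    exact h2
  have h := H₁ d M (sh N q) (sh N x) hF' V hV (by
      intro K' hK' I' hI'
      have h2 := Vm_ge hF' le_rfl hK' I' hI'
      rw [vb_eq hF' hK' I', ← hVe] at h2
      unfold vr at h2
      simp only [dev_eq]
      exact h2) y hyy hyM Y (fun i hi => hY (N + i) (by omega)) (by omega) μ L (by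
      intro i
      refine le_trans (mul_le_mul_of_nonneg_left (Real.rpow_le_rpow_of_exponent_le hY1 ?_) (by positivity)) (hL i)
      have h3 : A₁ * y ^ 2 ≤ A₁ * (8 * l) := mul_le_mul_of_nonneg_left hy8 hA₁.le
      have h4 : 0 ≤ (8 / δ₀ ^ 2 + 1) * l := by positivity
      nlinarith)
  have e1 : y * √V = (1 + δ) * √(2 * V * l) := by
    rw [hy, mul_assoc, ← Real.sqrt_mul (by positivity)]
    congr 2
    ring
  rw [e1] at h
  refine h.trans ?_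
  apply Real.exp_le_exp.2
  rw [hy2]
  have h5 : (1 + δ) ≤ (1 - δ / 4) * (1 + δ) ^ 2 := by nlinarith [mul_pos hδ hδ, mul_nonneg (mul_nonneg hδ.le hδ.le) (sub_nonneg.2 hδ1)]
  have h6 := mul_le_mul_of_nonneg_right h5 hl0.le
  nlinarith

end Pool.Agent.H46.SI
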